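import Mathlib

namespace Pool.Agent.Results.MP_e06cf1_nt.Counter

open Polynomial

/-- The parameters `λ` for which both orbits pass through `β` after at least one step. -/
def Cg {K : Type} [Field K] (g : K[X]) (a₁ a₂ b : K) : Set K :=
  {l | ∃ m n : ℕ, 0 < m ∧ 0 < n ∧ (fun z => g.eval z + l)^[m] a₁ = b ∧
    (fun z => g.eval z + l)^[n] a₂ = b}

lemma root {K : Type} [Field K] [IsAlgClosed K] (n : ℕ) (hn : 2 ≤ n) (c : K) :
    ∃ x : K, x ^ n + x = c := by
  have hd : (X ^ n + (X - C c) : K[X]).degree = n := by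
    rw [degree_add_eq_left_of_degree_lt] <;> rw [degree_X_pow]
    rw [degree_X_sub_C]
    exact_mod_cast hn
  obtain ⟨x, hx⟩ := IsAlgClosed.exists_root (X ^ n + (X - C c) : K[X]) (by
    rw [hd]; exact_mod_cast (by omega : n ≠ 0))
  exact ⟨x, by simp only [IsRoot.def, eval_add, eval_pow, eval_X, eval_sub, eval_C] at hx
               linear_combination hx⟩

theorem result : ∃ (g : (AlgebraicClosure (ZMod 2))[X]) (a₁ a₂ b : AlgebraicClosure (ZMod 2)),
    2 ≤ g.natDegree ∧ g.eval 0 = 0 ∧ (∃ x y, g.eval (x + y) ≠ g.eval x + g.eval y) ∧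
      Cg g a₁ a₂ b = ∅ := by
  have h2 : (2 : AlgebraicClosure (ZMod 2)) = 0 := CharTwo.two_eq_zero
  obtain ⟨w, hw⟩ := root 2 le_rfl (1 : AlgebraicClosure (ZMod 2))
  obtain ⟨x, hx⟩ := root 4 (by norm_num) (1 : AlgebraicClosure (ZMod 2))
  obtain ⟨y, hy⟩ := root 4 (by norm_num) w
  have add : ∀ u v : AlgebraicClosure (ZMod 2),
      (u + v) ^ 4 + (u + v) = (u ^ 4 + u) + (v ^ 4 + v) := fun u v => by
    linear_combination (2 * u ^ 3 * v + 3 * u ^ 2 * v ^ 2 + 2 * u * v ^ 3) * h2
  have w4 : w ^ 4 + w = 0 := by linear_combination (w ^ 2 - w + 2) * hw + (1 - w) * h2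
  refine ⟨X + (X ^ 4 + X) ^ 3, 1, w, 0, ?_, by simp, ⟨x, y, fun h => ?_⟩, ?_⟩
  · have : (X + (X ^ 4 + X) ^ 3 : (AlgebraicClosure (ZMod 2))[X]).natDegree = 12 := by
      compute_degree!
    omega
  · simp only [eval_add, eval_pow, eval_X, add, hx, hy] at h
    exact one_ne_zero (α := AlgebraicClosure (ZMod 2)) (by linear_combination h - 3 * hw - h2)
  · refine Set.eq_empty_of_forall_notMem fun l ⟨m, n, hm, hn, h1, h3⟩ => ?_
    simp only [eval_add, eval_pow, eval_X] at h1 h3
    set f : AlgebraicClosure (ZMod 2) → _ := fun z => z + (z ^ 4 + z) ^ 3 + l with hf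
    have c : ∀ t, t ^ 4 + t = 0 → ∀ k z, f^[k] (z + t) = f^[k] z + t := by
      intro t ht k
      induction k with
      | zero => simp
      | succ k ih =>
        intro z
        rw [Function.iterate_succ_apply, Function.iterate_succ_apply, ← ih]
        congr 1
        simp only [hf, add, ht, add_zero]
        ring
    have d : ∀ t, t ^ 4 + t = 0 → ∀ k, f^[k] t = 0 → ∀ j : ℕ, f^[k * j] 0 = j * t := by
      intro t ht k hk j
      have e := c t ht k 0
      rw [zero_add, hk] at e
      induction j with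
      | zero => simp
      | succ j ih =>
        rw [mul_add, mul_one, Function.iterate_add_apply,
          show f^[k] 0 = 0 + t by linear_combination -e - t * h2, c t ht, ih]
        push_cast
        ring
    obtain ⟨g, m', n', hg, hc, rfl, rfl⟩ := Nat.exists_coprime' (Nat.gcd_pos_of_pos_left n hm)
    have e1 := d 1 (by linear_combination h2) _ h1 n'
    have e2 := d w w4 _ h3 m'
    rw [show n' * g * m' = m' * g * n' by ring, e1, mul_one] at e2
    have p : ∀ j : ℕ, (j : AlgebraicClosure (ZMod 2)) = if j % 2 = 0 then 0 else 1 := by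
      intro j
      rw [CharP.cast_eq_mod _ 2 j]
      rcases Nat.mod_two_eq_zero_or_one j with h | h <;> simp [h]
    rw [p m', p n'] at e2
    split_ifs at e2 with a b b
    · have := Nat.dvd_gcd (Nat.dvd_of_mod_eq_zero b) (Nat.dvd_of_mod_eq_zero a)
      rw [hc] at this
      omega
    · rw [one_mul] at e2
      simp [← e2] at hw
    · simp at e2
    · rw [one_mul] at e2
      rw [← e2] at hw
      exact one_ne_zero (α := AlgebraicClosure (ZMod 2)) (by linear_combination hw)

end Pool.Agent.Results.MP_e06cf1_nt.Counter
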